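import Pool.Agent.H773.IE.SH

/-!
# Project IE (helper773), task NUL (helper190): zero sets of polynomial functions
-/

set_option autoImplicit false
set_option linter.unusedSectionVars false

open MeasureTheory Set Filter Topology
open scoped ENNReal

namespace Pool.Agent.H190.IE.Null

open Pool.Agent.H773.IE

section gen

variable {G : Type} [Group G] [TopologicalSpace G] [IsTopologicalGroup G]
  [SecondCountableTopology G] [MeasurableSpace G] [BorelSpace G]

/-- almost all zeros are zeros on the whole orbit of a one-parameter subgroup -/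
theorem one' (μ : Measure G) [SigmaFinite μ] [μ.IsMulRightInvariant] (T : ℝ → G)
    (hTc : Continuous T) (hTa : ∀ s t, T (s + t) = T s * T t) (f : G → ℝ) (hf : Continuous f)
    (hp : ∀ g, ∃ p : Polynomial ℝ, ∀ t, f (g * T t) = p.eval t) :
    μ {g | f g = 0 ∧ ¬ ∀ t, f (g * T t) = 0} = 0 := by
  set C : Set G := {g | ∀ t, f (g * T t) = 0} with hC
  have hCc : IsClosed C := by
    have h1 : C = ⋂ t, {g | f (g * T t) = 0} := by
      ext g
      simp [hC]
    rw [h1]
    exact isClosed_iInter fun t => isClosed_eq (hf.comp (continuous_id.mul continuous_const))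
      continuous_const
  set W : Set (G × ℝ) := {p | f (p.1 * T p.2) = 0} ∩ Prod.fst ⁻¹' Cᶜ with hW
  have hWm : MeasurableSet W := by
    refine MeasurableSet.inter ?_ (measurable_fst hCc.measurableSet.compl)
    exact (isClosed_eq (hf.comp (continuous_fst.mul (hTc.comp continuous_snd)))
      continuous_const).measurableSet
  have hW0 : (μ.prod (volume : Measure ℝ)) W = 0 := by
    rw [Measure.measure_prod_null hWm]
    refine Eventually.of_forall fun g => ?_
    show volume (Prod.mk g ⁻¹' W) = 0
    by_cases hg : g ∈ C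
    · have h1 : Prod.mk g ⁻¹' W = ∅ := by
        ext t
        simp only [mem_preimage, hW, mem_inter_iff, mem_compl_iff, mem_empty_iff_false, iff_false,
          not_and, not_not]
        exact fun _ => hg
      rw [h1, measure_empty]
    · obtain ⟨p, hp⟩ := hp g
      have hp0 : p ≠ 0 := by
        rintro rfl
        exact hg fun t => by rw [hp, Polynomial.eval_zero]
      refine Set.Finite.measure_zero ?_ _
      refine (Polynomial.finite_setOfPred_isRoot hp0).subset ?_
      intro t ht
      have h2 : f (g * T t) = 0 := ht.1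
      rw [hp] at h2
      exact h2
  have hW1 : ((volume : Measure ℝ).prod μ) (Prod.swap ⁻¹' W) = 0 := by
    rw [← Measure.prod_swap, Measure.map_apply measurable_swap (measurable_swap hWm)]
    have h1 : (Prod.swap ⁻¹' (Prod.swap ⁻¹' W) : Set (G × ℝ)) = W := by
      ext p
      simp
    rw [h1]
    exact hW0
  have h2 := Measure.measure_ae_null_of_prod_null hW1
  obtain ⟨t, ht⟩ := h2.exists
  have h3 : μ ((fun g => g * T t) ⁻¹' {g | f g = 0 ∧ ¬ ∀ t, f (g * T t) = 0}) = 0 := by
    refine measure_mono_null ?_ ht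
    intro g hg
    refine ⟨hg.1, fun h => hg.2 fun s => ?_⟩
    rw [mul_assoc, ← hTa]
    exact h (t + s)
  rwa [measure_preimage_mul_right] at h3

/-- the general statement -/
theorem gen (μ : Measure G) [SigmaFinite μ] [μ.IsMulRightInvariant] (ι : Type) [Countable ι]
    (T : ι → ℝ → G) (hTc : ∀ i, Continuous (T i)) (hTa : ∀ i s t, T i (s + t) = T i s * T i t)
    (hd : Dense (Subgroup.closure {g | ∃ (i : ι) (t : ℚ), g = T i t} : Set G)) (f : G → ℝ)
    (hf : Continuous f) (hp : ∀ g i, ∃ p : Polynomial ℝ, ∀ t, f (g * T i t) = p.eval t)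
    (hne : ∃ g, f g ≠ 0) : μ {g | f g = 0} = 0 := by
  set B : Set G := ⋃ i, {g | f g = 0 ∧ ¬ ∀ t, f (g * T i t) = 0} with hB
  have hB0 : μ B = 0 := measure_iUnion_null fun i =>
    one' μ (T i) (hTc i) (hTa i) f hf fun g => hp g i
  set pr : List (ι × ℚ) → G := fun w => (w.map fun x => T x.1 x.2).prod with hpr
  have hw : μ (⋃ w, (fun g => g * pr w) ⁻¹' B) = 0 := measure_iUnion_null fun w => by
    rw [measure_preimage_mul_right]
    exact hB0
  refine measure_mono_null ?_ hw
  intro g hg
  by_contra hn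
  have hn' : ∀ w, g * pr w ∉ B := fun w h => hn (mem_iUnion.2 ⟨w, h⟩)
  have hT0 : ∀ i, T i 0 = 1 := fun i => by
    have := hTa i 0 0
    rw [add_zero] at this
    exact (mul_eq_left.1 this.symm)
  have hz : ∀ w, f (g * pr w) = 0 := by
    intro w
    induction w using List.reverseRecOn with
    | nil =>
      simp only [hpr, List.map_nil, List.prod_nil, mul_one]
      exact hg
    | append_singleton w x ih =>
      have h1 : g * pr (w ++ [x]) = g * pr w * T x.1 x.2 := by
        simp [hpr, mul_assoc]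
      rw [h1]
      by_contra h2
      exact hn' w (mem_iUnion.2 ⟨x.1, ih, fun h => h2 (h _)⟩)
  have hcl : ∀ γ ∈ Subgroup.closure {g | ∃ (i : ι) (t : ℚ), g = T i t}, f (g * γ) = 0 := by
    intro γ hγ
    rw [← Subgroup.mem_toSubmonoid, Subgroup.closure_toSubmonoid] at hγ
    obtain ⟨l, hl, rfl⟩ := Submonoid.exists_list_of_mem_closure hγ
    have h1 : ∀ y ∈ l, ∃ x : ι × ℚ, T x.1 x.2 = y := by
      intro y hy
      rcases hl y hy with ⟨i, t, h⟩ | ⟨i, t, h⟩
      · exact ⟨(i, t), h.symm⟩
      · refine ⟨(i, -t), ?_⟩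
        show T i ((-t : ℚ) : ℝ) = y
        have h2 : T i ((-t : ℚ) : ℝ) * T i t = 1 := by
          rw [← hTa, Rat.cast_neg, neg_add_cancel, hT0]
        rw [← h] at h2
        exact mul_inv_eq_one.1 h2
    have h2 : ∃ w, pr w = l.prod := by
      clear hl hγ
      induction l with
      | nil => exact ⟨[], by simp [hpr]⟩
      | cons y l ih =>
        obtain ⟨w, hw⟩ := ih fun y' hy' => h1 y' (List.mem_cons_of_mem _ hy')
        obtain ⟨x, hx⟩ := h1 y List.mem_cons_self
        refine ⟨x :: w, ?_⟩
        rw [List.prod_cons, ← hw, ← hx]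
        simp [hpr]
    obtain ⟨w, hw⟩ := h2
    rw [← hw]
    exact hz w
  obtain ⟨g', hg'⟩ := hne
  apply hg'
  have h3 : IsClosed {γ | f (g * γ) = 0} :=
    isClosed_eq (hf.comp (continuous_const.mul continuous_id)) continuous_const
  have h4 : g⁻¹ * g' ∈ {γ | f (g * γ) = 0} := by
    have h5 := hd.closure_eq
    have h6 : closure (Subgroup.closure {g | ∃ (i : ι) (t : ℚ), g = T i t} : Set G) ⊆
        {γ | f (g * γ) = 0} := h3.closure_subset_iff.2 hcl
    rw [h5] at h6
    exact h6 (mem_univ _)
  have h7 : f (g * (g⁻¹ * g')) = 0 := h4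
  rwa [mul_inv_cancel_left] at h7

end gen

theorem t_null (htop : S_top) (huni : S_uni) (hden : S_dense) : S_null := by
  intro d hd _ _ μ _ f hf hp hne
  obtain ⟨_, _, _⟩ := htop d
  have hr : μ.IsMulRightInvariant := huni d hd μ
  refine gen μ {x : Fin d × Fin d // x.1 ≠ x.2}
    (fun x t => Matrix.SpecialLinearGroup.transvection x.2 t) ?_ ?_ ?_ f hf ?_ hne
  · intro x
    refine Continuous.subtype_mk ?_ _
    have h1 : Matrix.transvection x.1.1 x.1.2 =
        fun t : ℝ => (1 : Matrix (Fin d) (Fin d) ℝ) + t • Matrix.single x.1.1 x.1.2 (1 : ℝ) := by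
      funext t
      simp [Matrix.transvection, Matrix.smul_single]
    rw [h1]
    fun_prop
  · intro x s t
    exact Matrix.SpecialLinearGroup.transvection_add _ _ _
  · have h1 : {g : SLR d | ∃ (x : {x : Fin d × Fin d // x.1 ≠ x.2}) (t : ℚ),
        g = Matrix.SpecialLinearGroup.transvection x.2 (t : ℝ)} =
        {g : SLR d | ∃ (i j : Fin d) (hij : i ≠ j) (t : ℚ),
          g = Matrix.SpecialLinearGroup.transvection hij (t : ℝ)} := by
      ext g
      constructor
      · rintro ⟨⟨⟨i, j⟩, hij⟩, t, h⟩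
        exact ⟨i, j, hij, t, h⟩
      · rintro ⟨i, j, hij, t, h⟩
        exact ⟨⟨⟨i, j⟩, hij⟩, t, h⟩
    rw [h1]
    exact hden d hd
  · intro g x
    exact hp g x.1.1 x.1.2 x.2

end Pool.Agent.H190.IE.Null
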